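import Pool.Agent.helper4.QX.SpecD
import Pool.Agent.helper62.QU.All

set_option autoImplicit false

open scoped MatrixGroups ContDiff Topology UpperHalfPlane
open UpperHalfPlane MeasureTheory ProbabilityTheory Filter Set Polynomial
open Pool.Agent.QU Pool.Agent.RP

namespace Pool.Agent.QX

theorem CVI_aux {Q : Type} [NormedAddCommGroup Q] [NormedSpace ℝ Q] {W : Set Q} (hW : IsOpen W)
    {q : ℍ → Q} (hqc : Continuous q) (hq : ∀ w, q w ∈ W) (n : ℕ) :
    ∀ (E' : Type) [NormedAddCommGroup E'] [NormedSpace ℝ E'] (g : ℂ × Q → E'),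
      ContDiffOn ℝ ∞ g (CA1_U ×ˢ W) → CVS_P (fun ζ w => g (ζ, q w)) →
      ContDiffOn ℝ n (fun ζ => ∫ w : ℍ, g (ζ, q w)) CA1_U := by
  induction n with
  | zero =>
    intro E' _ _ g hg hP
    have := CVS_cont hg.continuousOn hqc hq hP
    simpa [contDiffOn_zero] using this
  | succ n ih =>
    intro E' _ _ g hg hP
    have h := ih (ℂ →L[ℝ] E') (CVS_D g) (CVS_Dsm hW hg) (CVS_PD hW hg hq hP)
    have hd : ∀ ζ ∈ CA1_U, HasFDerivAt (fun ζ => ∫ w : ℍ, g (ζ, q w))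
        (∫ w : ℍ, CVS_D g (ζ, q w)) ζ := fun ζ hζ => CVS_int hW hg hqc hq hP hζ
    have e : ((n + 1 : ℕ) : WithTop ℕ∞) = (n : WithTop ℕ∞) + 1 := by push_cast; rfl
    rw [e, contDiffOn_succ_iff_fderiv_of_isOpen CA1_open]
    refine ⟨fun ζ hζ => (hd ζ hζ).differentiableAt.differentiableWithinAt, by simp, ?_⟩
    exact h.congr fun ζ hζ => (hd ζ hζ).fderiv

theorem CVI : CVI_stmt := by
  intro E _ _ _ κ f hκ hf
  have hW : IsOpen (CA1_U ×ˢ (univ : Set E)) := CA1_open.prod isOpen_univ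
  have hqc : Continuous (fun w : ℍ => ((w : ℂ), f w)) := UpperHalfPlane.continuous_coe.prodMk hf
  have hq : ∀ w : ℍ, ((w : ℂ), f w) ∈ CA1_U ×ˢ (univ : Set E) := fun w => ⟨CA1_mem w, mem_univ _⟩
  show ContDiffOn ℝ ∞ (onC (conv κ f)) CA1_U
  rw [contDiffOn_infty]
  intro n
  have h := CVI_aux hW hqc hq n E (CVS_g (E := E) κ) (CVS_gsm hκ.smooth) (CVS_gP A_TTT hκ f)
  exact h.congr fun ζ hζ => CVS_on κ f hζ

end Pool.Agent.QX
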